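import Pool.Agent.Lib.helper3.TTOClark

open MeasureTheory
open scoped InnerProductSpace

namespace Pool.Agent.Results.MP_3119c3_an.Example

open Pool.Agent.Lib.helper3.TTOClark

/-- A complex symmetric `3 × 3` matrix that is the matrix of a truncated Toeplitz operator in an
orthonormal basis, but never in a modified Aleksandrov-Clark basis. -/
theorem result : ∃ M : Matrix (Fin 3) (Fin 3) ℂ, M.IsSymm ∧
    (∃ (Θ : ℂ → ℂ) (φ : AddCircle (1 : ℝ) → ℂ) (A : L2 → L2) (e : Fin 3 → L2),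
      IsBlaschke 3 Θ ∧ MemLp φ ⊤ mu ∧ IsTTO Θ φ A ∧ IsONB Θ e ∧ IsMatrixOf M A e) ∧
    ¬ ∃ (Θ : ℂ → ℂ) (φ : AddCircle (1 : ℝ) → ℂ) (A : L2 → L2) (e : Fin 3 → L2),
      IsBlaschke 3 Θ ∧ MemLp φ ⊤ mu ∧ IsTTO Θ φ A ∧ IsClark Θ e ∧ IsMatrixOf M A e := by
  refine ⟨!![0, 0, 1; 0, 0, 0; 1, 0, 0], ?_, ⟨fun z => z ^ 3,
    fun x => fourier 2 x + fourier (-2) x, A3, e3, ⟨1, 0, by simp, by simp, by simp⟩, ?_, tto_A3,
    onb_e3, ?_⟩, ?_⟩
  · ext i j
    fin_cases i <;> fin_cases j <;> rfl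
  · refine MemLp.of_bound (Continuous.aestronglyMeasurable (by fun_prop)) 2
      (Filter.Eventually.of_forall fun x => (norm_add_le _ _).trans ?_)
    simp only [fourier_apply, Circle.norm_coe]
    norm_num
  · intro i j
    change _ = ⟪F (i : ℕ), ⟪F 2, F (j : ℕ)⟫_ℂ • F 0 + ⟪F 0, F (j : ℕ)⟫_ℂ • F 2⟫_ℂ
    rw [inner_add_right, inner_smul_right, inner_smul_right, F_inner, F_inner, F_inner, F_inner]
    fin_cases i <;> fin_cases j <;> simp
  · rintro ⟨Θ, φ, A, e, -, -, hA, he, hM⟩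
    have h := clark_pattern hA he (hM 0 1).symm (hM 1 2).symm
    rw [← hM 2 0] at h
    exact one_ne_zero h

end Pool.Agent.Results.MP_3119c3_an.Example
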